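import Pool.Agent.Helper17.SO.Stmts

/-!
# Norms and self-conjugate primes
-/

set_option autoImplicit false

namespace Pool.Agent.Helper17.SO

open Polynomial

/-- Frobenius in `ℤ[X]`. -/
theorem selfc_frob {p : ℕ} (hp : p.Prime) (P : ℤ[X]) (j : ℕ) :
    ∃ Q : ℤ[X], P ^ (p ^ j) - expand ℤ (p ^ j) P = C (p : ℤ) * Q := by
  haveI : Fact p.Prime := ⟨hp⟩
  have h1 : ∀ g : (ZMod p)[X], expand (ZMod p) (p ^ j) g = g ^ (p ^ j) := by
    intro g
    induction j with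
    | zero => rw [pow_zero, pow_one, expand_one]
    | succ j ih =>
      rw [pow_succ, mul_comm, ← expand_expand, ih, ZMod.expand_card, ← pow_mul, mul_comm]
  have h2 : Polynomial.map (Int.castRingHom (ZMod p)) (P ^ (p ^ j) - expand ℤ (p ^ j) P) = 0 := by
    rw [Polynomial.map_sub, Polynomial.map_pow, Polynomial.map_expand, h1, sub_self]
  have h3 : C (p : ℤ) ∣ P ^ (p ^ j) - expand ℤ (p ^ j) P := by
    rw [C_dvd_iff_dvd_coeff]
    intro i
    have h4 := congrArg (fun g => coeff g i) h2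
    simp only [coeff_map, coeff_zero] at h4
    exact (ZMod.intCast_zmod_eq_zero_iff_dvd _ p).1 h4
  obtain ⟨Q, hQ⟩ := h3
  exact ⟨Q, hQ⟩

theorem selfc_pow {p : ℕ} (hp : p.Prime) (ζ : ℂ) (P : ℤ[X]) (j : ℕ) :
    ∃ Q : ℤ[X], (aeval ζ P) ^ (p ^ j) = aeval (ζ ^ (p ^ j)) P + (p : ℂ) * aeval ζ Q := by
  obtain ⟨Q, hQ⟩ := selfc_frob hp P j
  refine ⟨Q, ?_⟩
  have h := congrArg (aeval ζ) hQ
  rw [map_sub, map_pow, expand_aeval, map_mul, aeval_C] at h
  have h2 : algebraMap ℤ ℂ (p : ℤ) = (p : ℂ) := by simp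
  rw [h2] at h
  rw [← h]
  ring

theorem selfc_conj (ζ : ℂ) (P : ℤ[X]) :
    (starRingEnd ℂ) (aeval ζ P) = aeval ((starRingEnd ℂ) ζ) P := by
  rw [aeval_def, aeval_def, hom_eval₂]
  congr 1
  exact RingHom.ext_int _ _

theorem selfc_int {N p : ℕ} (hp : p.Prime) {w : ℂ} (hw : IsIntegral ℤ w)
    (h : (N : ℂ) = (p : ℂ) ^ 2 * w) : ∃ N' : ℕ, N = p ^ 2 * N' ∧ (N' : ℂ) = w := by
  have hp0 : (p : ℂ) ≠ 0 := Nat.cast_ne_zero.2 hp.ne_zero
  have hpq : (p : ℚ) ≠ 0 := Nat.cast_ne_zero.2 hp.ne_zero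
  have h1 : w = algebraMap ℚ ℂ ((N : ℚ) / (p : ℚ) ^ 2) := by
    have h2 : algebraMap ℚ ℂ ((N : ℚ) / (p : ℚ) ^ 2) = (N : ℂ) / (p : ℂ) ^ 2 := by
      simp
    rw [h2, h]
    field_simp
  rw [h1, isIntegral_algebraMap_iff (algebraMap ℚ ℂ).injective] at hw
  obtain ⟨m, hm⟩ := IsIntegrallyClosed.isIntegral_iff.1 hw
  have h3 : (N : ℤ) = (p : ℤ) ^ 2 * m := by
    have h4 : (m : ℚ) = (N : ℚ) / (p : ℚ) ^ 2 := hm
    have h5 : (N : ℚ) = (p : ℚ) ^ 2 * (m : ℚ) := by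
      rw [h4]
      field_simp
    exact_mod_cast h5
  have h6 : 0 ≤ m := by
    by_contra hneg
    push Not at hneg
    have h7 : (0 : ℤ) < (p : ℤ) ^ 2 := by
      have := hp.pos
      positivity
    have h8 : (p : ℤ) ^ 2 * m < 0 := mul_neg_of_pos_of_neg h7 hneg
    rw [← h3] at h8
    exact absurd (Int.natCast_nonneg N) (not_le.2 h8)
  obtain ⟨N', rfl⟩ := Int.eq_ofNat_of_zero_le h6
  refine ⟨N', by exact_mod_cast h3, ?_⟩
  have h9 : (N : ℂ) = (p : ℂ) ^ 2 * (N' : ℂ) := by exact_mod_cast h3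
  rw [h] at h9
  exact (mul_left_cancel₀ (pow_ne_zero 2 hp0) h9).symm

theorem st_SELFC : ST_SELFC := by
  intro q p f N ζ y hq hq2 hp hpq hpf hζ hy hN hyN
  haveI : Fact q.Prime := ⟨hq⟩
  have hζ1 : ζ ^ q = 1 := hζ.pow_eq_one
  have hζ0 : ζ ≠ 0 := hζ.ne_zero hq.ne_zero
  -- exponents
  have hf1 : ζ ^ (p ^ f + 1) = 1 := by
    have h1 : ((p ^ f + 1 : ℕ) : ZMod q) = 0 := by
      push_cast
      rw [hpf]
      ring
    obtain ⟨m, hm⟩ := (ZMod.natCast_eq_zero_iff _ _).1 h1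
    rw [hm, pow_mul, hζ1, one_pow]
  have hf2 : ζ ^ (p ^ f) = (starRingEnd ℂ) ζ := by
    have h1 : (starRingEnd ℂ) ζ * ζ = 1 := by
      have h2 : ‖ζ‖ = 1 := Complex.norm_eq_one_of_pow_eq_one hζ1 hq.ne_zero
      have h3 : (starRingEnd ℂ) ζ * ζ = ((‖ζ‖ ^ 2 : ℝ) : ℂ) := by
        rw [mul_comm, Complex.mul_conj, Complex.normSq_eq_norm_sq]
      rw [h3, h2]
      simp
    have h4 : ζ ^ (p ^ f) * ζ = (starRingEnd ℂ) ζ * ζ := by
      rw [h1, ← pow_succ, hf1]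
    exact mul_right_cancel₀ hζ0 h4
  have hf0 : 1 ≤ f := by
    rcases Nat.eq_zero_or_pos f with h0 | h0
    · exfalso
      rw [h0, pow_zero] at hpf
      have h1 : ((2 : ℕ) : ZMod q) = 0 := by
        push_cast
        have : (2 : ZMod q) = 1 + 1 := by norm_num
        rw [this]
        nth_rewrite 1 [hpf]
        ring
      rw [ZMod.natCast_eq_zero_iff] at h1
      exact hq2 ((Nat.prime_dvd_prime_iff_eq hq Nat.prime_two).1 h1)
    · exact h0
  have hf3 : ζ ^ (p ^ (2 * f)) = ζ := by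
    have h1 : (p : ZMod q) ^ (2 * f) = 1 := by
      rw [mul_comm, pow_mul, hpf]
      ring
    have h2 : 1 ≤ p ^ (2 * f) := Nat.one_le_pow _ _ hp.pos
    have h3 : ((p ^ (2 * f) - 1 : ℕ) : ZMod q) = 0 := by
      rw [Nat.cast_sub h2]
      push_cast
      rw [h1, sub_self]
    obtain ⟨m, hm⟩ := (ZMod.natCast_eq_zero_iff _ _).1 h3
    have h4 : p ^ (2 * f) = q * m + 1 := by omega
    rw [h4, pow_succ, pow_mul, hζ1, one_pow, one_mul]
  have hmem : ∀ z, z ∈ Algebra.adjoin ℤ ({ζ} : Set ℂ) ↔ ∃ P : ℤ[X], z = aeval ζ P := by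
    intro z
    rw [Algebra.adjoin_singleton_eq_range_aeval]
    constructor
    · rintro ⟨P, hP⟩
      exact ⟨P, hP.symm⟩
    · rintro ⟨P, hP⟩
      exact ⟨P, hP.symm⟩
  have hζint : IsIntegral ℤ ζ := hζ.isIntegral hq.pos
  have hint : ∀ z ∈ Algebra.adjoin ℤ ({ζ} : Set ℂ), IsIntegral ℤ z := by
    intro z hz
    have h1 : Algebra.adjoin ℤ ({ζ} : Set ℂ) ≤ integralClosure ℤ ℂ :=
      Algebra.adjoin_le (by
        intro x hx
        rw [Set.mem_singleton_iff] at hx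
        rw [hx]
        exact hζint)
    exact h1 hz
  have hpnat : ∀ m : ℕ, ((m : ℕ) : ℂ) ∈ Algebra.adjoin ℤ ({ζ} : Set ℂ) := fun m =>
    Subalgebra.natCast_mem _ m
  -- conjugation
  have hconj : ∀ z ∈ Algebra.adjoin ℤ ({ζ} : Set ℂ),
      (starRingEnd ℂ) z ∈ Algebra.adjoin ℤ ({ζ} : Set ℂ) := by
    intro z hz
    obtain ⟨P, rfl⟩ := (hmem z).1 hz
    rw [selfc_conj, ← hf2]
    rw [hmem]
    exact ⟨expand ℤ (p ^ f) P, by rw [expand_aeval]⟩
  -- the main induction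
  revert y
  induction N using Nat.strong_induction_on with
  | _ N ih =>
    intro y hy hyN
    by_cases hpN : p ∣ N
    swap
    · rw [Nat.factorization_eq_zero_of_not_dvd hpN]
      exact Even.zero
    obtain ⟨P, rfl⟩ := (hmem y).1 hy
    obtain ⟨N1, hN1⟩ := hpN
    obtain ⟨Q1, hQ1⟩ := selfc_pow hp ζ P f
    obtain ⟨Q2, hQ2⟩ := selfc_pow hp ζ P (2 * f)
    rw [hf2, ← selfc_conj] at hQ1
    rw [hf3] at hQ2
    -- y ^ (p ^ f + 1)
    have hR : ∀ Q : ℤ[X], aeval ζ Q ∈ Algebra.adjoin ℤ ({ζ} : Set ℂ) := fun Q =>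
      (hmem _).2 ⟨Q, rfl⟩
    have h1 : ∃ r ∈ Algebra.adjoin ℤ ({ζ} : Set ℂ),
        (aeval ζ P) ^ (p ^ f + 1) = (p : ℂ) * r := by
      refine ⟨(N1 : ℂ) + aeval ζ P * aeval ζ Q1,
        add_mem (hpnat N1) (mul_mem (hR P) (hR Q1)), ?_⟩
      rw [pow_succ, hQ1]
      have h2 : (N : ℂ) = (p : ℂ) * (N1 : ℂ) := by exact_mod_cast hN1
      rw [h2] at hyN
      linear_combination hyN
    obtain ⟨r1, hr1, h1⟩ := h1
    have h3 : ∃ r ∈ Algebra.adjoin ℤ ({ζ} : Set ℂ), aeval ζ P = (p : ℂ) * r := by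
      have h4 : p ^ f + 1 ≤ p ^ (2 * f) := by
        have h5 : 2 ≤ p ^ f := le_trans hp.two_le (Nat.le_self_pow (by omega) p)
        have h6 : p ^ (2 * f) = p ^ f * p ^ f := by rw [two_mul, pow_add]
        rw [h6]
        nlinarith
      obtain ⟨m, hm⟩ := Nat.exists_eq_add_of_le h4
      refine ⟨r1 * (aeval ζ P) ^ m - aeval ζ Q2,
        sub_mem (mul_mem hr1 (pow_mem (hR P) m)) (hR Q2), ?_⟩
      have h7 : (aeval ζ P) ^ (p ^ (2 * f)) = (p : ℂ) * (r1 * (aeval ζ P) ^ m) := by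
        rw [hm, pow_add, h1]
        ring
      rw [h7] at hQ2
      linear_combination (-1 : ℂ) * hQ2
    obtain ⟨y', hy', h8⟩ := h3
    have h9 : (N : ℂ) = (p : ℂ) ^ 2 * (y' * (starRingEnd ℂ) y') := by
      rw [← hyN, h8, map_mul, map_natCast]
      ring
    obtain ⟨N', hN', hN'2⟩ := selfc_int hp (hint _ (mul_mem hy' (hconj _ hy'))) h9
    have hN'0 : 1 ≤ N' := by
      rcases Nat.eq_zero_or_pos N' with h0 | h0
      · rw [h0, mul_zero] at hN'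
        omega
      · exact h0
    have hlt : N' < N := by
      rw [hN']
      have h10 : 4 ≤ p ^ 2 := by
        have := hp.two_le
        nlinarith
      nlinarith
    have h11 := ih N' hlt hN'0 y' hy' hN'2.symm
    rw [hN', Nat.factorization_mul (pow_ne_zero 2 hp.ne_zero) (by omega), Finsupp.add_apply,
      hp.factorization_pow, Finsupp.single_eq_same]
    exact (even_two).add h11

end Pool.Agent.Helper17.SO
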